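import Pool.Agent.TH866.TauBin

set_option autoImplicit false

namespace Pool.Agent.Results.MP_97f157_lc.Binomials

open Polynomial

/-- Reduction of Koiran's problem to products of binomials `1 + c x ^ a` with `c ≥ 0`.

Let `f = ∑ i < K, ∏ j < m, F i j` be nonzero, where `F i j` is a real polynomial with at most `t j`
monomials, and let `δ > 0`. Then there is a nonzero polynomial
`g = ∑ i < K 2 ^ m + 1, lam i * ∏ j < t 0 + ... + t (m - 1), (1 + c i j * x ^ (a i j))` with real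
`lam i` and `c i j ≥ 0` which has at least as many distinct real roots as `f`, even if one counts
only the roots `x` at which all the sums `∑ j, c i j |x| ^ (a i j)` are at most `δ`. -/
theorem result (K m : ℕ) (t : Fin m → ℕ) (F : Fin K → Fin m → ℝ[X])
    (hF : ∀ i j, (F i j).support.card ≤ t j) (hne : ∑ i, ∏ j, F i j ≠ 0) (δ : ℝ) (hδ : 0 < δ) :
    ∃ (lam : Fin (K * 2 ^ m + 1) → ℝ)
      (c : Fin (K * 2 ^ m + 1) → Fin (∑ j, t j) → ℝ)
      (a : Fin (K * 2 ^ m + 1) → Fin (∑ j, t j) → ℕ),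
      (∀ i j, 0 ≤ c i j) ∧ (∑ i, C (lam i) * ∏ j, (1 + C (c i j) * X ^ a i j)) ≠ 0 ∧
      ∃ T : Finset ℝ, (∑ i, ∏ j, F i j).roots.toFinset.card ≤ T.card ∧
        ∀ x ∈ T, (∑ i, C (lam i) * ∏ j, (1 + C (c i j) * X ^ a i j)).eval x = 0 ∧
          ∀ i, ∑ j, c i j * |x| ^ a i j ≤ δ :=
  Pool.Agent.TH866.TauBin.transfer K m t F hF hne δ hδ

end Pool.Agent.Results.MP_97f157_lc.Binomials
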