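import Pool.Agent.TH673.Tau2.Main

set_option autoImplicit false

namespace Pool.Agent.Results.MP_97f157_lc.FanInTwo

open Polynomial

/-- Reduction of Koiran's problem to two products, with the number of factors per product fixed:
if a nonzero sum of `K` products of `m + 1` real `t`-sparse polynomials has `R` distinct real roots,
then there are two products of `2 ^ m * (K + 1)` real `((m + 1) t + 1)`-sparse polynomials whose sum
is nonzero and has at least `R` distinct real roots. -/
theorem result (K m t : ℕ) (F : Fin K → Fin (m + 1) → ℝ[X])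
    (hF : ∀ i j, (F i j).support.card ≤ t) (hne : ∑ i, ∏ j, F i j ≠ 0) :
    ∃ G : Fin 2 → Fin (2 ^ m * (K + 1)) → ℝ[X],
      (∀ i j, (G i j).support.card ≤ (m + 1) * t + 1) ∧ (∑ i, ∏ j, G i j) ≠ 0 ∧
      (∑ i, ∏ j, F i j).roots.toFinset.card ≤ (∑ i, ∏ j, G i j).roots.toFinset.card :=
  Pool.Agent.TH673.Tau2.transfer K m t F hF hne

end Pool.Agent.Results.MP_97f157_lc.FanInTwo
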