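import Pool.Agent.TH866.TauThree

set_option autoImplicit false

namespace Pool.Agent.Results.MP_97f157_lc.TwoLargeParameters

open Polynomial

/-- Superlinearly many real roots for all `k, m, t ≥ 2`, as soon as two of the three parameters are
large. Let `R (k, m, t)` be the largest number of distinct real roots of a nonzero sum of `k` products
of `m` real `t`-sparse polynomials. For all `k, m, t ≥ 2` and every natural number `s` with
`s ^ 7 ≤ k` and `s ^ 4 ≤ m t`, or with `s ^ 7 ≤ k m` and `s ^ 4 ≤ t`, one has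
`k m t s ^ 2 ≤ 500000 R (k, m, t)`; that is, up to a constant, `R (k, m, t)` is at least `k m t` times
the larger of `min (k ^ (2/7), (m t) ^ (1/2))` and `min ((k m) ^ (2/7), t ^ (1/2))`. -/
theorem result (k m t s : ℕ) (hk : 2 ≤ k) (hm : 2 ≤ m) (ht : 2 ≤ t)
    (h : (s ^ 7 ≤ k ∧ s ^ 4 ≤ m * t) ∨ (s ^ 7 ≤ k * m ∧ s ^ 4 ≤ t)) :
    ∃ F : Fin k → Fin m → ℝ[X], (∀ i j, (F i j).support.card ≤ t) ∧ (∑ i, ∏ j, F i j) ≠ 0 ∧
      k * m * t * s ^ 2 ≤ 500000 * (∑ i, ∏ j, F i j).roots.toFinset.card := by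
  obtain ⟨r, ⟨F, h1, h2, h3⟩, h4⟩ := Pool.Agent.TH866.TauGlue.main k m t s hk hm ht h
  exact ⟨F, h1, h2, h4.trans (Nat.mul_le_mul_left _ h3)⟩

end Pool.Agent.Results.MP_97f157_lc.TwoLargeParameters
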