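import Pool.Agent.TH673.Tau2.Main

set_option autoImplicit false

namespace Pool.Agent.Results.MP_97f157_lc.TwoProducts

open Polynomial

/-- Already for `k = 2` the number of real roots in Koiran's real tau-conjecture is polynomially
superlinear in the size: for all `s, e ≥ 1` there are two products of `384 s e ^ 3 + 2` real
polynomials, each with at most `4 e ^ 2 + 8 s ^ 2 e + 1` monomials, whose sum is nonzero and has at
least `64 s ^ 3 e ^ 5` distinct real roots. With `s = r` and `e = r ^ 2` the number of factors is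
`m = 384 r ^ 7 + 2`, the sparsity is `t = 12 r ^ 4 + 1` and there are `64 r ^ 13` roots, so any bound
`C (m t) ^ c` for `k = 2` has `c ≥ 13 / 11`. -/
theorem result (s e : ℕ) (hs : 1 ≤ s) (he : 1 ≤ e) :
    ∃ F : Fin 2 → Fin (384 * s * e ^ 3 + 2) → ℝ[X],
      (∀ i j, (F i j).support.card ≤ 4 * e ^ 2 + 8 * s ^ 2 * e + 1) ∧
      (∑ i, ∏ j, F i j) ≠ 0 ∧
      64 * s ^ 3 * e ^ 5 ≤ (∑ i, ∏ j, F i j).roots.toFinset.card := by
  have h := Pool.Agent.TH673.Tau2.family₁ s e hs he
  have h1 : 2 * (192 * s * e ^ 3 + 1) = 384 * s * e ^ 3 + 2 := by ring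
  have h2 : 2 * (2 * e ^ 2 + 4 * s ^ 2 * e) + 1 = 4 * e ^ 2 + 8 * s ^ 2 * e + 1 := by ring
  rw [h1, h2] at h
  exact h

end Pool.Agent.Results.MP_97f157_lc.TwoProducts
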